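import Mathlib

/-!
# The radius of convergence of every `q`-deformed real number is at least `(3 - √5) / 2`

Put `ρ = (√5 - 1) / 2` and `R = (3 - √5) / 2 = ρ² = 1 - ρ`. In the Banach algebra of power series
`∑ aₙ qⁿ` with `∑ |aₙ| Rⁿ < ∞` the closed ball of centre `1` and radius `ρ` is invariant under
`z ↦ 1 + q z` and `z ↦ 1 + q - q / z`. All truncations `[[c₁, …, c_N]]_q` lie in this ball.
-/

open Filter Topology Finset PowerSeries

namespace Pool.Agent.Results.MP_b13893_an.RadiusAllReals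

/-- The `q`-integer `[n]_q = 1 + q + ⋯ + q^(n-1)` as a power series in `q`. -/
noncomputable def qint (n : ℕ) : PowerSeries ℂ := ∑ i ∈ range n, (X : PowerSeries ℂ) ^ i

/-- The truncated negative continued fraction
`c 0 - 1 / (c 1 - 1 / (⋯ - 1 / c N))` (a real number). -/
noncomputable def trunc : ℕ → (ℕ → ℕ) → ℝ
  | 0, c => c 0
  | N + 1, c => c 0 - 1 / trunc N (fun j => c (j + 1))

/-- The `q`-deformed truncated continued fraction
`[c 0]_q - q^(c 0 - 1) / ([c 1]_q - q^(c 1 - 1) / (⋯ / [c N]_q))` (a power series in `q`). -/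
noncomputable def qtrunc : ℕ → (ℕ → ℕ) → PowerSeries ℂ
  | 0, c => qint (c 0)
  | N + 1, c => qint (c 0) - X ^ (c 0 - 1) * (qtrunc N (fun j => c (j + 1)))⁻¹

/-- `F` is the `q`-deformation `[x]_q` of the real number `x`: for some `n` with expansion
`x + n = [[c 0, c 1, …]]`, `c j ≥ 2`, the series `G = [x + n]_q` is the `q`-adic limit of the
`q`-deformed truncations, and `F = q^(-n) (G - [n]_q)` (the shift rule applied `n` times). -/
def IsQReal (x : ℝ) (F : LaurentSeries ℂ) : Prop :=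
  ∃ (n : ℕ) (c : ℕ → ℕ) (G : PowerSeries ℂ), (∀ j, 2 ≤ c j) ∧
    Tendsto (fun N => trunc N c) atTop (𝓝 (x + n)) ∧
    (∀ m, ∀ᶠ N in atTop, coeff m (qtrunc N c) = coeff m G) ∧
    F = HahnSeries.single (-(n : ℤ)) 1 * HahnSeries.ofPowerSeries ℤ ℂ (G - qint n)

/-- The radius of convergence of a Laurent series with finite principal part (the principal part
does not matter for it). -/
noncomputable def radius (F : LaurentSeries ℂ) : ENNReal :=
  (FormalMultilinearSeries.ofScalars ℂ (fun n : ℕ => F.coeff (n : ℤ))).radius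

/-! ### `q`-integers -/

lemma qint_succ (n : ℕ) : qint (n + 1) = 1 + X * qint n := by
  unfold qint
  rw [Finset.sum_range_succ', Finset.mul_sum, pow_zero, add_comm]
  congr 1
  exact Finset.sum_congr rfl fun i _ => by rw [pow_succ, mul_comm]

lemma qint_add (n d : ℕ) : qint (n + d) = qint d + X ^ d * qint n := by
  unfold qint
  rw [add_comm n d, Finset.sum_range_add, Finset.mul_sum]
  congr 1
  exact Finset.sum_congr rfl fun i _ => by rw [pow_add]

lemma qint_one : qint 1 = 1 := by simp [qint]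

/-! ### Weighted partial sums of the coefficients -/

/-- weighted partial sums -/
noncomputable def S (t : ℝ) (M : ℕ) (F : PowerSeries ℂ) : ℝ := ∑ n ∈ range M, ‖coeff n F‖ * t ^ n

section norm

variable {t : ℝ} (ht : 0 ≤ t)

include ht

lemma S_nonneg (M : ℕ) (F : PowerSeries ℂ) : 0 ≤ S t M F :=
  Finset.sum_nonneg fun n _ => by positivity

lemma S_mul (M : ℕ) (F G : PowerSeries ℂ) : S t M (F * G) ≤ S t M F * S t M G := by
  unfold S
  rw [Finset.sum_mul_sum, ← Finset.sum_product']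
  have h1 : ∀ n ∈ range M, ‖coeff n (F * G)‖ * t ^ n ≤
      ∑ p ∈ antidiagonal n, (‖coeff p.1 F‖ * t ^ p.1) * (‖coeff p.2 G‖ * t ^ p.2) := by
    intro n _
    rw [PowerSeries.coeff_mul]
    calc ‖∑ p ∈ antidiagonal n, coeff p.1 F * coeff p.2 G‖ * t ^ n
        ≤ (∑ p ∈ antidiagonal n, ‖coeff p.1 F * coeff p.2 G‖) * t ^ n := by
          gcongr
          exact norm_sum_le _ _
      _ = _ := by
          rw [Finset.sum_mul]
          refine Finset.sum_congr rfl fun p hp => ?_
          rw [Finset.HasAntidiagonal.mem_antidiagonal] at hp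
          rw [norm_mul, ← hp, pow_add]
          ring
  refine (Finset.sum_le_sum h1).trans ?_
  rw [← Finset.sum_biUnion]
  · refine Finset.sum_le_sum_of_subset_of_nonneg ?_ fun p _ _ => by positivity
    intro p hp
    simp only [mem_biUnion, mem_range, Finset.HasAntidiagonal.mem_antidiagonal] at hp
    obtain ⟨n, hn, hp⟩ := hp
    simp only [mem_product, mem_range]
    omega
  · intro i _ j _ hij
    refine Finset.disjoint_left.2 fun p h1 h2 => hij ?_
    rw [Finset.HasAntidiagonal.mem_antidiagonal] at h1 h2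
    rw [← h1, h2]

lemma S_add (M : ℕ) (F G : PowerSeries ℂ) : S t M (F + G) ≤ S t M F + S t M G := by
  unfold S
  rw [← Finset.sum_add_distrib]
  refine Finset.sum_le_sum fun n _ => ?_
  rw [map_add, ← add_mul]
  gcongr
  exact norm_add_le _ _

omit ht in
lemma S_neg (M : ℕ) (F : PowerSeries ℂ) : S t M (-F) = S t M F := by
  unfold S
  refine Finset.sum_congr rfl fun n _ => ?_
  rw [map_neg, norm_neg]

omit ht in
lemma S_one (M : ℕ) : S t M 1 ≤ 1 := by
  unfold S
  have h : ∀ n ∈ range M, ‖coeff n (1 : PowerSeries ℂ)‖ * t ^ n = if n = 0 then 1 else 0 := by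
    intro n _
    rw [PowerSeries.coeff_one]
    split_ifs with h
    · simp [h]
    · simp
  rw [Finset.sum_congr rfl h, Finset.sum_ite_eq']
  split_ifs <;> norm_num

lemma S_X (M : ℕ) : S t M X ≤ t := by
  unfold S
  have h : ∀ n ∈ range M, ‖coeff n (X : PowerSeries ℂ)‖ * t ^ n = if n = 1 then t else 0 := by
    intro n _
    rw [PowerSeries.coeff_X]
    split_ifs with h
    · simp [h]
    · simp
  rw [Finset.sum_congr rfl h, Finset.sum_ite_eq']
  split_ifs
  · exact le_rfl
  · exact ht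

lemma S_X_mul (M : ℕ) (F : PowerSeries ℂ) : S t M (X * F) ≤ t * S t M F :=
  (S_mul ht M X F).trans (mul_le_mul_of_nonneg_right (S_X ht M) (S_nonneg ht M F))

end norm

/-! ### The invariant ball -/

/-- the radius of the ball -/
noncomputable def rho : ℝ := (Real.sqrt 5 - 1) / 2

/-- the radius of the disc -/
noncomputable def Rs : ℝ := (3 - Real.sqrt 5) / 2

lemma sq5 : Real.sqrt 5 * Real.sqrt 5 = 5 := Real.mul_self_sqrt (by norm_num)

lemma sq5_gt : 2 < Real.sqrt 5 := by
  rw [show (2 : ℝ) = Real.sqrt 4 by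
    rw [show (4 : ℝ) = 2 ^ 2 by norm_num, Real.sqrt_sq (by norm_num)]]
  exact Real.sqrt_lt_sqrt (by norm_num) (by norm_num)

lemma sq5_lt : Real.sqrt 5 < 3 := by
  rw [show (3 : ℝ) = Real.sqrt 9 by
    rw [show (9 : ℝ) = 3 ^ 2 by norm_num, Real.sqrt_sq (by norm_num)]]
  exact Real.sqrt_lt_sqrt (by norm_num) (by norm_num)

lemma rho_pos : 0 < rho := by unfold rho; linarith [sq5_gt]
lemma rho_lt : rho < 1 := by unfold rho; linarith [sq5_lt]
lemma Rs_pos : 0 < Rs := by unfold Rs; linarith [sq5_lt]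
lemma Rs_eq : Rs = 1 - rho := by unfold Rs rho; ring
lemma Rs_eq_sq : Rs = rho * rho := by unfold Rs rho; linarith [sq5]

/-- The invariant ball. -/
def Ball (F : PowerSeries ℂ) : Prop := ∀ M, S Rs M (F - 1) ≤ rho

lemma Ball.S_le {F : PowerSeries ℂ} (h : Ball F) (M : ℕ) : S Rs M F ≤ 1 + rho := by
  have h1 : F = 1 + (F - 1) := by ring
  rw [h1]
  exact (S_add Rs_pos.le M _ _).trans (add_le_add (S_one M) (h M))

lemma Ball.const_ne {F : PowerSeries ℂ} (h : Ball F) : constantCoeff F ≠ 0 := by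
  intro h0
  have h1 := h 1
  unfold S at h1
  rw [Finset.sum_range_one, pow_zero, mul_one, map_sub,
    PowerSeries.coeff_zero_eq_constantCoeff_apply, h0,
    PowerSeries.coeff_zero_eq_constantCoeff_apply, map_one] at h1
  norm_num at h1
  linarith [rho_lt]

lemma Ball.one : Ball 1 := by
  intro M
  rw [sub_self]
  unfold S
  simp [rho_pos.le]

lemma Ball.A {F : PowerSeries ℂ} (h : Ball F) : Ball (1 + X * F) := by
  intro M
  rw [add_sub_cancel_left]
  calc S Rs M (X * F) ≤ Rs * S Rs M F := S_X_mul Rs_pos.le M F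
    _ ≤ Rs * (1 + rho) := mul_le_mul_of_nonneg_left (h.S_le M) Rs_pos.le
    _ = rho := by
      have h1 := Rs_eq
      have h2 := Rs_eq_sq
      nlinarith

lemma Ball.B {F : PowerSeries ℂ} (h : Ball F) : Ball (1 + X - X * F⁻¹) := by
  intro M
  have hF : F * F⁻¹ = 1 := PowerSeries.mul_inv_cancel F h.const_ne
  set W : PowerSeries ℂ := 1 - F⁻¹ with hW
  have h1 : 1 + X - X * F⁻¹ - 1 = X * W := by rw [hW]; ring
  have h2 : W = (F - 1) * F⁻¹ := by rw [hW, sub_mul, hF, one_mul]
  have h3 : F⁻¹ = 1 + -W := by rw [hW]; ring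
  have h4 : S Rs M W ≤ rho * (1 + S Rs M W) := by
    calc S Rs M W = S Rs M ((F - 1) * F⁻¹) := by rw [← h2]
      _ ≤ S Rs M (F - 1) * S Rs M F⁻¹ := S_mul Rs_pos.le M _ _
      _ ≤ rho * (1 + S Rs M W) := by
        refine mul_le_mul (h M) ?_ (S_nonneg Rs_pos.le M _) rho_pos.le
        rw [h3]
        refine (S_add Rs_pos.le M _ _).trans ?_
        rw [S_neg]
        exact add_le_add (S_one M) le_rfl
  rw [h1]
  refine (S_X_mul Rs_pos.le M W).trans ?_
  have h5 : Rs * S Rs M W = S Rs M W - rho * S Rs M W := by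
    generalize S Rs M W = s
    rw [Rs_eq]
    ring
  rw [h5]
  linarith

lemma Ball.f {F : PowerSeries ℂ} (h : Ball F) (c : ℕ) :
    Ball (qint (c + 2) - X ^ (c + 1) * F⁻¹) := by
  induction c with
  | zero =>
    have : qint (0 + 2) - X ^ (0 + 1) * F⁻¹ = 1 + X - X * F⁻¹ := by
      rw [zero_add, zero_add, pow_one, show (2 : ℕ) = 1 + 1 from rfl, qint_succ, qint_one, mul_one]
    rw [this]
    exact h.B
  | succ c ih =>
    have : qint (c + 1 + 2) - X ^ (c + 1 + 1) * F⁻¹ =
        1 + X * (qint (c + 2) - X ^ (c + 1) * F⁻¹) := by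
      rw [show c + 1 + 2 = (c + 2) + 1 by ring, qint_succ, pow_succ' X (c + 1)]
      ring
    rw [this]
    exact ih.A

lemma Ball.qint (c : ℕ) : Ball (qint (c + 1)) := by
  induction c with
  | zero => rw [zero_add, qint_one]; exact Ball.one
  | succ c ih => rw [qint_succ]; exact ih.A

lemma Ball.qtrunc (N : ℕ) : ∀ c : ℕ → ℕ, (∀ j, 2 ≤ c j) → Ball (qtrunc N c) := by
  induction N with
  | zero =>
    intro c hc
    obtain ⟨d, hd⟩ : ∃ d, c 0 = d + 1 := ⟨c 0 - 1, by have := hc 0; omega⟩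
    simp only [RadiusAllReals.qtrunc]
    rw [hd]
    exact Ball.qint d
  | succ N ih =>
    intro c hc
    obtain ⟨d, hd⟩ : ∃ d, c 0 = d + 2 := ⟨c 0 - 2, by have := hc 0; omega⟩
    simp only [RadiusAllReals.qtrunc]
    rw [hd]
    exact (ih _ fun j => hc (j + 1)).f d

/-! ### `q`-adic convergence -/

lemma X_dvd_qtrunc (N : ℕ) : ∀ c : ℕ → ℕ, (∀ j, 2 ≤ c j) →
    X ^ (N + 1) ∣ qtrunc (N + 1) c - qtrunc N c := by
  induction N with
  | zero =>
    intro c hc
    simp only [qtrunc]
    rw [sub_sub_cancel_left, zero_add, pow_one]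
    obtain ⟨d, hd⟩ : ∃ d, c 0 - 1 = d + 1 := ⟨c 0 - 2, by have := hc 0; omega⟩
    rw [hd, pow_succ', mul_assoc]
    exact (dvd_mul_right _ _).neg_right
  | succ N ih =>
    intro c hc
    have hc' : ∀ j, 2 ≤ (fun j => c (j + 1)) j := fun j => hc (j + 1)
    have h1 := Ball.qtrunc (N + 1) _ hc'
    have h2 := Ball.qtrunc N _ hc'
    have h3 := PowerSeries.mul_inv_cancel _ h1.const_ne
    have h4 := PowerSeries.mul_inv_cancel _ h2.const_ne
    obtain ⟨K, hK⟩ := ih _ hc'
    obtain ⟨d, hd⟩ : ∃ d, c 0 - 1 = d + 1 := ⟨c 0 - 2, by have := hc 0; omega⟩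
    have e1 : qtrunc (N + 1 + 1) c = RadiusAllReals.qint (c 0) -
        X ^ (c 0 - 1) * (qtrunc (N + 1) (fun j => c (j + 1)))⁻¹ := rfl
    have e2 : qtrunc (N + 1) c = RadiusAllReals.qint (c 0) -
        X ^ (c 0 - 1) * (qtrunc N (fun j => c (j + 1)))⁻¹ := rfl
    rw [e1, e2, hd]
    generalize qtrunc (N + 1) (fun j => c (j + 1)) = P at *
    generalize qtrunc N (fun j => c (j + 1)) = Q at *
    refine ⟨X ^ d * K * (P⁻¹ * Q⁻¹), ?_⟩
    have h5 : Q⁻¹ - P⁻¹ = (P - Q) * (P⁻¹ * Q⁻¹) := by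
      calc Q⁻¹ - P⁻¹ = (P * P⁻¹) * Q⁻¹ - (Q * Q⁻¹) * P⁻¹ := by rw [h3, h4]; ring
        _ = _ := by ring
    calc RadiusAllReals.qint (c 0) - X ^ (d + 1) * P⁻¹ -
          (RadiusAllReals.qint (c 0) - X ^ (d + 1) * Q⁻¹) = X ^ (d + 1) * (Q⁻¹ - P⁻¹) := by ring
      _ = _ := by rw [h5, hK]; ring

lemma coeff_stable (c : ℕ → ℕ) (hc : ∀ j, 2 ≤ c j) (m N : ℕ) (h : m ≤ N) :
    coeff m (qtrunc N c) = coeff m (qtrunc m c) := by
  induction N, h using Nat.le_induction with
  | base => rfl
  | succ N hN ih =>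
    rw [← ih]
    have h1 := (PowerSeries.X_pow_dvd_iff.1 (X_dvd_qtrunc N c hc)) m (by omega)
    rw [map_sub] at h1
    exact sub_eq_zero.1 h1

lemma exists_limit (c : ℕ → ℕ) (hc : ∀ j, 2 ≤ c j) :
    ∃ G : PowerSeries ℂ, ∀ m, ∀ᶠ N in atTop, coeff m (qtrunc N c) = coeff m G := by
  refine ⟨PowerSeries.mk fun m => coeff m (qtrunc m c), fun m => ?_⟩
  filter_upwards [eventually_ge_atTop m] with N hN
  rw [PowerSeries.coeff_mk]
  exact coeff_stable c hc m N hN

lemma Ball.limit {c : ℕ → ℕ} (hc : ∀ j, 2 ≤ c j) {G : PowerSeries ℂ}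
    (hG : ∀ m, ∀ᶠ N in atTop, coeff m (RadiusAllReals.qtrunc N c) = coeff m G) : Ball G := by
  intro M
  have h1 : ∀ᶠ N in atTop, ∀ m ∈ range M,
      coeff m (RadiusAllReals.qtrunc N c) = coeff m G :=
    (Filter.eventually_all_finset _).2 fun m _ => hG m
  obtain ⟨N, hN⟩ := h1.exists
  have h2 : S Rs M (G - 1) = S Rs M (RadiusAllReals.qtrunc N c - 1) := by
    unfold S
    refine Finset.sum_congr rfl fun m hm => ?_
    rw [map_sub, map_sub, hN m hm]
  rw [h2]
  exact Ball.qtrunc N c hc M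

/-! ### Classical expansions -/

lemma one_le_trunc (N : ℕ) : ∀ c : ℕ → ℕ, (∀ j, 2 ≤ c j) → 1 ≤ trunc N c := by
  induction N with
  | zero =>
    intro c hc
    have : (2 : ℝ) ≤ c 0 := by exact_mod_cast hc 0
    simp only [trunc]
    linarith
  | succ N ih =>
    intro c hc
    have : (2 : ℝ) ≤ c 0 := by exact_mod_cast hc 0
    have h1 := ih (fun j => c (j + 1)) fun j => hc (j + 1)
    have h2 : 1 / trunc N (fun j => c (j + 1)) ≤ 1 := by
      rw [div_le_one (by linarith)]; exact h1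
    simp only [trunc]
    linarith

lemma trunc_le (N : ℕ) (c : ℕ → ℕ) (hc : ∀ j, 2 ≤ c j) : trunc N c ≤ c 0 := by
  cases N with
  | zero => exact le_rfl
  | succ N =>
    have h1 := one_le_trunc N (fun j => c (j + 1)) fun j => hc (j + 1)
    have h2 : 0 ≤ 1 / trunc N (fun j => c (j + 1)) := by positivity
    simp only [trunc]
    linarith

/-- The first digit, and the remaining expansion. -/
lemma head {c : ℕ → ℕ} (hc : ∀ j, 2 ≤ c j) {y : ℝ}
    (h : Tendsto (fun N => trunc N c) atTop (𝓝 y)) :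
    c 0 = ⌊y⌋₊ + 1 ∧
      Tendsto (fun N => trunc N (fun j => c (j + 1))) atTop (𝓝 (1 / (c 0 - y))) := by
  have hc' : ∀ j, 2 ≤ (fun j => c (j + 1)) j := fun j => hc (j + 1)
  have h0 : (2 : ℝ) ≤ c 0 := by exact_mod_cast hc 0
  have hc1 : (2 : ℝ) ≤ c 1 := by exact_mod_cast hc 1
  have h' : Tendsto (fun N => trunc (N + 1) c) atTop (𝓝 y) := (tendsto_add_atTop_iff_nat 1).2 h
  have hlow : (c 0 : ℝ) - 1 ≤ y := by
    refine ge_of_tendsto' h' fun N => ?_
    have h1 := one_le_trunc N _ hc'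
    have h2 : 1 / trunc N (fun j => c (j + 1)) ≤ 1 := by
      rw [div_le_one (by linarith)]; exact h1
    simp only [trunc]
    linarith
  have hup : y ≤ (c 0 : ℝ) - 1 / c 1 := by
    refine le_of_tendsto' h' fun N => ?_
    have h1 := one_le_trunc N _ hc'
    have h2 := trunc_le N _ hc'
    have h3 : 1 / (c 1 : ℝ) ≤ 1 / trunc N (fun j => c (j + 1)) :=
      one_div_le_one_div_of_le (by linarith) h2
    simp only [trunc]
    linarith
  have hlt : y < c 0 := by
    have : (0 : ℝ) < 1 / c 1 := by positivity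
    linarith
  constructor
  · have h1 : ⌊y⌋₊ = c 0 - 1 := by
      rw [Nat.floor_eq_iff (by linarith)]
      have h2 : ((c 0 - 1 : ℕ) : ℝ) = (c 0 : ℝ) - 1 := by
        rw [Nat.cast_sub (by have := hc 0; omega)]; norm_num
      rw [h2]
      constructor <;> linarith
    have := hc 0
    omega
  · have h1 : ∀ N, trunc N (fun j => c (j + 1)) = 1 / (c 0 - trunc (N + 1) c) := by
      intro N
      have h2 := one_le_trunc N _ hc'
      simp only [trunc]
      rw [sub_sub_cancel, one_div_one_div]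
    simp_rw [h1]
    exact tendsto_const_nhds.div (tendsto_const_nhds.sub h') (by linarith)

/-- Expansions are unique. -/
lemma unique_digits (j : ℕ) : ∀ (c d : ℕ → ℕ) (y : ℝ), (∀ j, 2 ≤ c j) → (∀ j, 2 ≤ d j) →
    Tendsto (fun N => trunc N c) atTop (𝓝 y) → Tendsto (fun N => trunc N d) atTop (𝓝 y) →
    c j = d j := by
  induction j with
  | zero =>
    intro c d y hc hd h1 h2
    rw [(head hc h1).1, (head hd h2).1]
  | succ j ih =>
    intro c d y hc hd h1 h2
    have h3 := head hc h1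
    have h4 := head hd h2
    have h5 : c 0 = d 0 := by rw [h3.1, h4.1]
    rw [← h5] at h4
    exact ih (fun j => c (j + 1)) (fun j => d (j + 1)) _ (fun j => hc (j + 1))
      (fun j => hd (j + 1)) h3.2 h4.2

/-- The tail map of the expansion. -/
noncomputable def T (y : ℝ) : ℝ := 1 / (⌊y⌋₊ + 1 - y)

/-- The digits of `y`. -/
noncomputable def dig (y : ℝ) (j : ℕ) : ℕ := ⌊T^[j] y⌋₊ + 1

lemma one_le_T {y : ℝ} (hy : 1 ≤ y) : 1 ≤ T y := by
  have h1 := Nat.floor_le (show 0 ≤ y by linarith)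
  have h2 := Nat.lt_floor_add_one y
  unfold T
  rw [le_div_iff₀ (by linarith)]
  linarith

lemma one_le_iter {y : ℝ} (hy : 1 ≤ y) (j : ℕ) : 1 ≤ T^[j] y := by
  induction j with
  | zero => exact hy
  | succ j ih => rw [Function.iterate_succ_apply']; exact one_le_T ih

lemma two_le_dig {y : ℝ} (hy : 1 ≤ y) (j : ℕ) : 2 ≤ dig y j := by
  have h1 := one_le_iter hy j
  have h2 : 1 ≤ ⌊T^[j] y⌋₊ := Nat.le_floor (by exact_mod_cast h1)
  unfold dig
  omega

lemma dig_succ (y : ℝ) : (fun j => dig y (j + 1)) = dig (T y) := by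
  funext j
  unfold dig
  rw [Function.iterate_succ_apply]

lemma trunc_dig (N : ℕ) : ∀ y : ℝ, 1 ≤ y → 0 ≤ trunc N (dig y) - y ∧
    trunc N (dig y) - y ≤ 1 / ((N : ℝ) + 1) := by
  induction N with
  | zero =>
    intro y hy
    have h1 := Nat.floor_le (show 0 ≤ y by linarith)
    have h2 := Nat.lt_floor_add_one y
    have h3 : trunc 0 (dig y) = ⌊y⌋₊ + 1 := by simp [trunc, dig]
    rw [h3]
    constructor
    · linarith
    · norm_num
      linarith
  | succ N ih =>
    intro y hy
    have hT := one_le_T hy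
    obtain ⟨h1, h2⟩ := ih (T y) hT
    have h3 := Nat.lt_floor_add_one y
    have h4 : y = (dig y 0 : ℝ) - 1 / T y := by
      unfold T dig
      rw [one_div_one_div]
      simp
    have h5 : trunc (N + 1) (dig y) = (dig y 0 : ℝ) - 1 / trunc N (dig (T y)) := by
      simp only [trunc]
      rw [dig_succ]
    obtain ⟨e, he⟩ : ∃ e, e = trunc N (dig (T y)) - T y := ⟨_, rfl⟩
    rw [← he] at h1 h2
    have h6 : trunc N (dig (T y)) = T y + e := by rw [he]; ring
    have h7 : trunc (N + 1) (dig y) - y = e / (T y * (T y + e)) := by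
      have h8 : trunc (N + 1) (dig y) - y = 1 / T y - 1 / (T y + e) := by
        rw [h5, h6]
        linarith
      rw [h8]
      have : T y ≠ 0 := by linarith
      have : T y + e ≠ 0 := by linarith
      field_simp
      ring
    rw [h7]
    constructor
    · positivity
    · have h9 : e / (T y * (T y + e)) ≤ e / (1 + e) := by
        gcongr
        nlinarith
      refine h9.trans ?_
      push_cast
      have hN : (0 : ℝ) < (N : ℝ) + 1 := by positivity
      rw [le_div_iff₀ hN] at h2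
      rw [div_le_div_iff₀ (by linarith) (by linarith)]
      nlinarith

lemma tendsto_dig {y : ℝ} (hy : 1 ≤ y) : Tendsto (fun N => trunc N (dig y)) atTop (𝓝 y) := by
  have h1 : Tendsto (fun N : ℕ => y + 1 / ((N : ℝ) + 1)) atTop (𝓝 (y + 0)) :=
    tendsto_const_nhds.add tendsto_one_div_add_atTop_nhds_zero_nat
  rw [add_zero] at h1
  refine tendsto_of_tendsto_of_tendsto_of_le_of_le tendsto_const_nhds h1 ?_ ?_
  · intro N
    have := (trunc_dig N y hy).1
    simp only
    linarith
  · intro N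
    have := (trunc_dig N y hy).2
    simp only
    linarith

/-! ### Existence and uniqueness of `[x]_q` -/

/-- raising the first digit -/
def raise (c : ℕ → ℕ) (d : ℕ) : ℕ → ℕ := fun j => if j = 0 then c 0 + d else c j

lemma raise_succ (c : ℕ → ℕ) (d : ℕ) : (fun j => raise c d (j + 1)) = fun j => c (j + 1) := by
  funext j; simp [raise]

lemma raise_zero (c : ℕ → ℕ) (d : ℕ) : raise c d 0 = c 0 + d := by simp [raise]

lemma trunc_raise (c : ℕ → ℕ) (d N : ℕ) : trunc N (raise c d) = trunc N c + d := by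
  cases N with
  | zero => simp [trunc, raise]
  | succ N =>
    simp only [trunc]
    rw [raise_succ, raise_zero]
    push_cast
    ring

lemma qtrunc_raise (c : ℕ → ℕ) (hc : 2 ≤ c 0) (d N : ℕ) :
    qtrunc N (raise c d) = X ^ d * qtrunc N c + RadiusAllReals.qint d := by
  cases N with
  | zero =>
    simp only [qtrunc]
    rw [raise_zero, qint_add]
    ring
  | succ N =>
    simp only [qtrunc]
    rw [raise_succ, raise_zero, qint_add, show c 0 + d - 1 = d + (c 0 - 1) by omega, pow_add]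
    ring

lemma unique_aux {x : ℝ} {n d : ℕ} {c c' : ℕ → ℕ} {G G' : PowerSeries ℂ}
    (hc : ∀ j, 2 ≤ c j) (hc' : ∀ j, 2 ≤ c' j)
    (h : Tendsto (fun N => trunc N c) atTop (𝓝 (x + n)))
    (h' : Tendsto (fun N => trunc N c') atTop (𝓝 (x + (n + d : ℕ))))
    (hG : ∀ m, ∀ᶠ N in atTop, coeff m (qtrunc N c) = coeff m G)
    (hG' : ∀ m, ∀ᶠ N in atTop, coeff m (qtrunc N c') = coeff m G') :
    HahnSeries.single (-((n + d : ℕ) : ℤ)) 1 *
        HahnSeries.ofPowerSeries ℤ ℂ (G' - RadiusAllReals.qint (n + d)) =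
      HahnSeries.single (-(n : ℤ)) 1 *
        HahnSeries.ofPowerSeries ℤ ℂ (G - RadiusAllReals.qint n) := by
  have hr : ∀ j, 2 ≤ raise c d j := by
    intro j
    unfold raise
    split_ifs
    · have := hc 0; omega
    · exact hc j
  have ht : Tendsto (fun N => trunc N (raise c d)) atTop (𝓝 (x + (n + d : ℕ))) := by
    simp_rw [trunc_raise]
    have := h.add_const (d : ℝ)
    push_cast
    rwa [← add_assoc]
  have hcc : c' = raise c d := funext fun j => unique_digits j _ _ _ hc' hr h' ht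
  have hGG : G' = X ^ d * G + RadiusAllReals.qint d := by
    ext m
    have h1 : ∀ᶠ N in atTop, ∀ i ∈ range (m + 1), coeff i (qtrunc N c) = coeff i G :=
      (Filter.eventually_all_finset _).2 fun i _ => hG i
    obtain ⟨N, hN, hN'⟩ := (h1.and (hG' m)).exists
    rw [← hN', hcc, qtrunc_raise c (hc 0), map_add, map_add, PowerSeries.coeff_X_pow_mul',
      PowerSeries.coeff_X_pow_mul']
    congr 1
    split_ifs with hd
    · exact hN _ (by rw [mem_range]; omega)
    · rfl
  have hfin : G' - RadiusAllReals.qint (n + d) = X ^ d * (G - RadiusAllReals.qint n) := by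
    rw [hGG, qint_add]; ring
  rw [hfin, map_mul, HahnSeries.ofPowerSeries_X_pow, ← mul_assoc, HahnSeries.single_mul_single]
  congr 2
  · push_cast; ring
  · ring

/-- **Every `q`-deformed real number has radius of convergence at least `(3 - √5) / 2`**; it even
converges absolutely on the closed disc of this radius. -/
theorem result (x : ℝ) :
    (∃! F, IsQReal x F) ∧ ∀ F, IsQReal x F →
      ENNReal.ofReal ((3 - Real.sqrt 5) / 2) ≤ radius F ∧
      Summable fun n : ℕ => ‖F.coeff (n : ℤ)‖ * ((3 - Real.sqrt 5) / 2) ^ n := by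
  constructor
  · obtain ⟨n, hn⟩ := exists_nat_ge (1 - x)
    have hy : 1 ≤ x + n := by linarith
    obtain ⟨G, hG⟩ := exists_limit (dig (x + n)) (two_le_dig hy)
    refine ⟨_, ⟨n, dig (x + n), G, two_le_dig hy, tendsto_dig hy, hG, rfl⟩, ?_⟩
    rintro F ⟨n', c', G', hc', h', hG', rfl⟩
    rcases le_total n n' with hle | hle
    · obtain ⟨d, rfl⟩ := Nat.exists_eq_add_of_le hle
      exact unique_aux (two_le_dig hy) hc' (tendsto_dig hy) h' hG hG'
    · obtain ⟨d, rfl⟩ := Nat.exists_eq_add_of_le hle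
      exact (unique_aux hc' (two_le_dig hy) h' (tendsto_dig hy) hG' hG).symm
  · rintro F ⟨n, c, G, hc, h, hG, rfl⟩
    have hB := Ball.limit hc hG
    have hR := Rs_pos
    have hsG : Summable fun m : ℕ => ‖coeff m G‖ * Rs ^ m :=
      summable_of_sum_range_le (c := 1 + rho) (fun m => by positivity) fun M => hB.S_le M
    have hsq : Summable fun m : ℕ => ‖coeff m (RadiusAllReals.qint n)‖ * Rs ^ m := by
      cases n with
      | zero => simp [RadiusAllReals.qint]
      | succ n =>
        exact summable_of_sum_range_le (c := 1 + rho) (fun m => by positivity)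
          fun M => (Ball.qint n).S_le M
    have hs1 : Summable fun m : ℕ => ‖coeff m (G - RadiusAllReals.qint n)‖ * Rs ^ m := by
      refine Summable.of_nonneg_of_le (fun m => by positivity) (fun m => ?_) (hsG.add hsq)
      rw [map_sub, ← add_mul]
      gcongr
      exact norm_sub_le _ _
    have hs2 := (summable_nat_add_iff n).2 hs1
    have hcoef : ∀ m : ℕ, (HahnSeries.single (-(n : ℤ)) 1 *
        HahnSeries.ofPowerSeries ℤ ℂ (G - RadiusAllReals.qint n)).coeff (m : ℤ) =
        coeff (m + n) (G - RadiusAllReals.qint n) := by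
      intro m
      have h1 : (m : ℤ) = ((m + n : ℕ) : ℤ) + -(n : ℤ) := by push_cast; ring
      rw [h1, HahnSeries.coeff_single_mul_add, one_mul,
        HahnSeries.ofPowerSeries_apply_coeff]
    have hs3 : Summable fun m : ℕ => ‖(HahnSeries.single (-(n : ℤ)) 1 *
        HahnSeries.ofPowerSeries ℤ ℂ (G - RadiusAllReals.qint n)).coeff (m : ℤ)‖ * Rs ^ m := by
      refine (hs2.mul_right ((Rs ^ n)⁻¹)).congr fun m => ?_
      rw [hcoef, pow_add]
      field_simp
    refine ⟨?_, hs3⟩
    unfold radius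
    have h1 : ENNReal.ofReal ((3 - Real.sqrt 5) / 2) = ((Rs.toNNReal : NNReal) : ENNReal) := rfl
    rw [h1]
    refine FormalMultilinearSeries.le_radius_of_summable _ ?_
    simp_rw [FormalMultilinearSeries.ofScalars_norm, Real.coe_toNNReal Rs hR.le]
    exact hs3

end Pool.Agent.Results.MP_b13893_an.RadiusAllReals
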